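import Pool.Agent.H301X.BG.Stmts

set_option autoImplicit false

open MeasureTheory Topology Filter Set Metric
open scoped ENNReal NNReal ContDiff

namespace Pool.Agent.H301X.BG

open Pool.Agent.Results.MP_46c13c_an.UnequalTypes

theorem Tilt.rot {n : ℕ} {r : (Fin n → ℂ) → ℝ} {p v ν : Fin n → ℂ} {a : (Fin n → ℂ) → ℂ}
    {b : ℂ} {κ : ℝ} (h : Tilt r p v ν a b κ) :
    Tilt r p (Complex.I • v) ν (fun q => Complex.I * a q) (-b) κ := by
  have hD : ∀ (ζ : ℂ) (q : Fin n → ℂ), D (Complex.I • v) ν (fun q => Complex.I * a q) (-b) ζ q =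
      D v ν a b (Complex.I * ζ) q := by
    intro ζ q
    ext i
    simp only [D, Pi.add_apply, Pi.smul_apply, smul_eq_mul]
    have : Complex.I ^ 2 = -1 := Complex.I_sq
    linear_combination (b * ζ ^ 2 * ν i) * (-this)
  refine ⟨by simp [h.a_zero], ?_, ?_, ?_⟩
  · exact contDiffAt_const.mul h.a_smooth
  · intro hκ ζ
    have h1 := h.a_der hκ (ζ * Complex.I)
    have h2 : fderiv ℝ (fun q => Complex.I * a q) p = Complex.I • fderiv ℝ a p := by
      have := h.a_smooth.differentiableAt (by norm_num)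
      exact fderiv_const_mul this Complex.I
    rw [h2, smul_apply, smul_smul, h1, smul_eq_mul]
    have : Complex.I ^ 2 = -1 := Complex.I_sq
    linear_combination (2 * b * ζ) * this
  · intro η hη
    obtain ⟨ε, hε, H⟩ := h.disc η hη
    refine ⟨ε, hε, fun q hq ζ hζ => ?_⟩
    have h3 : Complex.I * ζ ∈ ball (0 : ℂ) ε := by
      rw [mem_ball_zero_iff] at hζ ⊢
      rwa [norm_mul, Complex.norm_I, one_mul]
    have h4 := H q hq _ h3
    rw [hD]
    rwa [norm_mul, Complex.norm_I, one_mul] at h4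

theorem eball_open {n : ℕ} (c : Fin n → ℂ) (ρ : ℝ) : IsOpen (eball c ρ) := by
  apply isOpen_lt
  · fun_prop
  · exact continuous_const

theorem eball_bounded {n : ℕ} (c : Fin n → ℂ) (ρ : ℝ) : Bornology.IsBounded (eball c ρ) := by
  refine (Metric.isBounded_closedBall (x := c) (r := |ρ|)).subset ?_
  intro x hx
  rw [mem_closedBall, dist_pi_le_iff (abs_nonneg _)]
  intro i
  have h1 : ‖x i - c i‖ ^ 2 ≤ ∑ i, ‖x i - c i‖ ^ 2 :=
    Finset.single_le_sum (f := fun i => ‖x i - c i‖ ^ 2) (fun j _ => by positivity)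
      (Finset.mem_univ i)
  have h2 : ‖x i - c i‖ ^ 2 ≤ |ρ| ^ 2 := by
    rw [sq_abs]; exact h1.trans (le_of_lt hx)
  rw [dist_eq_norm]
  exact (pow_le_pow_iff_left₀ (norm_nonneg _) (abs_nonneg _) (by norm_num)).1 h2

theorem closure_sub {n : ℕ} {Ω₁ Ω₂ : Set (Fin n → ℂ)} {p : Fin n → ℂ}
    (hsub : Ω₂ ⊆ Ω₁)
    (hp : frontier Ω₁ ∩ frontier Ω₂ = {p}) : closure Ω₂ ⊆ insert p Ω₁ := by
  intro x hx
  by_cases hx1 : x ∈ Ω₁
  · exact Or.inr hx1
  · left
    have h3 : x ∈ frontier Ω₁ := by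
      refine ⟨closure_mono hsub hx, fun h => hx1 (interior_subset h)⟩
    have h4 : x ∈ frontier Ω₂ := by
      refine ⟨hx, fun h => hx1 (hsub (interior_subset h))⟩
    have : x ∈ frontier Ω₁ ∩ frontier Ω₂ := ⟨h3, h4⟩
    rw [hp] at this
    exact this

theorem r_zero {n : ℕ} {Ω U : Set (Fin n → ℂ)} {p : Fin n → ℂ} {r : (Fin n → ℂ) → ℝ}
    (hΩ : IsOpen Ω) (hU : IsOpen U) (hpU : p ∈ U) (hr : ContinuousAt r p)
    (h : Ω ∩ U = {z | z ∈ U ∧ r z < 0}) (hp : p ∈ frontier Ω) : r p = 0 := by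
  have hpn : p ∉ Ω := by
    intro hh
    exact hp.2 (by rwa [hΩ.interior_eq])
  have h1 : 0 ≤ r p := by
    by_contra hc
    push Not at hc
    have : p ∈ Ω ∩ U := by rw [h]; exact ⟨hpU, hc⟩
    exact hpn this.1
  refine le_antisymm ?_ h1
  by_contra hc
  push Not at hc
  have h2 : ∀ᶠ z in 𝓝 p, 0 < r z := hr.eventually (lt_mem_nhds hc)
  have h3 : ∀ᶠ z in 𝓝 p, z ∈ U := hU.mem_nhds hpU
  have h4 : ∃ᶠ z in 𝓝 p, z ∈ Ω := mem_closure_iff_frequently.1 hp.1
  obtain ⟨z, hz, hz2, hz3⟩ := (h4.and_eventually (h2.and h3)).exists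
  have : z ∈ Ω ∩ U := ⟨hz, hz3⟩
  rw [h] at this
  exact absurd this.2 (not_lt.2 hz2.le)

/-- The conclusion: if the Levi form has a nonpositive direction then the restriction is
compact. -/
theorem compact_of (hTilt : TaskTilt) (hInj : TaskInj) (hMV : TaskMV) (hAvg : TaskAvg)
    (hStrip : TaskStrip) (hCmp : TaskBallCmp) (hMid : TaskMid) (hNeg : TaskNeg)
    (hDy : TaskDyadic) (hMo : TaskMontel) (hCo : TaskCompact)
    {n : ℕ} (Ω₁ : Set (Fin n → ℂ)) (c : Fin n → ℂ) (ρ : ℝ) (p : Fin n → ℂ) (hopen : IsOpen Ω₁)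
    (hsub : eball c ρ ⊆ Ω₁) (hp : frontier Ω₁ ∩ frontier (eball c ρ) = {p})
    (r : (Fin n → ℂ) → ℝ) (hr : IsLocalDefiningFunction Ω₁ p r) (v : Fin n → ℂ) (hv : v ≠ 0)
    (hv1 : fderiv ℝ r p v = 0) (hv2 : fderiv ℝ r p (Complex.I • v) = 0)
    (hL : LeviAt r p v ≤ 0) : RestrictionIsCompact Ω₁ (eball c ρ) := by
  obtain ⟨U, hU, hpU, hrU, hrd, hΩU⟩ := hr
  have hA := hAvg hMV
  have hM := hMo hMV
  have hpf : p ∈ frontier Ω₁ := by
    have : p ∈ frontier Ω₁ ∩ frontier (eball c ρ) := by rw [hp]; exact rfl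
    exact this.1
  have hr2 : ContDiffAt ℝ 2 r p :=
    (hrU.contDiffAt (hU.mem_nhds hpU)).of_le ENat.LEInfty.out
  have hr0 : r p = 0 := r_zero hopen hU hpU hr2.continuousAt hΩU hpf
  refine hCo hM n Ω₁ (eball c ρ) p hopen (eball_open c ρ) hsub (eball_bounded c ρ)
    (closure_sub hsub hp) ?_
  obtain ⟨ν, a, b, hν, hT⟩ := hTilt n r p v hr2 (hrd p hpU) hv1 hv2
  rcases lt_or_eq_of_le hL with hL | hL
  · exact hNeg hA hInj n Ω₁ (eball c ρ) U r p v ν a b (LeviAt r p v / 4) (by linarith) hv hT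
      hopen hU hpU hΩU (eball_open c ρ) hsub
  · rw [hL, zero_div] at hT
    have hB := hCmp n Ω₁ U r p c ν ρ hU hpU hΩU hr2 hr0 hν hsub
    by_cases hs : (b * ∑ i, ν i * (starRingEnd ℂ) (p i - c i)).re ≤ 0
    · exact hDy hA hInj hStrip n Ω₁ U r p v ν a b c ρ hT hopen hU hpU hrU.continuousOn hΩU hr0
        hsub (hMid n r p v ν a b c ρ hv hT hs hB)
    · refine hDy hA hInj hStrip n Ω₁ U r p (Complex.I • v) ν (fun q => Complex.I * a q) (-b) c ρ
        hT.rot hopen hU hpU hrU.continuousOn hΩU hr0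
        hsub (hMid n r p _ ν _ _ c ρ (smul_ne_zero Complex.I_ne_zero hv) hT.rot ?_ hB)
      push Not at hs
      rw [neg_mul, Complex.neg_re]
      linarith

end Pool.Agent.H301X.BG
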