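import Pool.Agent.Results.MP_46c13c_an.UnequalTypes

/-!
# Restriction of Bergman functions to an inner tangent ball (MP_46c13c_an, Q2)

Statements of the tasks.  Every task is a `Prop`; prove `theorem taskX : TaskX`.
-/

set_option autoImplicit false

open MeasureTheory Topology Filter Set Metric
open scoped ENNReal NNReal ContDiff

namespace Pool.Agent.H301X.BG

open Pool.Agent.Results.MP_46c13c_an.UnequalTypes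

/-- `|x - c|² - ρ²` (Euclidean norm). -/
noncomputable def r2 {n : ℕ} (c : Fin n → ℂ) (ρ : ℝ) (x : Fin n → ℂ) : ℝ := ∑ i, ‖x i - c i‖ ^ 2 - ρ ^ 2

/-- The open Euclidean ball of centre `c` and radius `ρ` in `ℂⁿ`. -/
def eball {n : ℕ} (c : Fin n → ℂ) (ρ : ℝ) : Set (Fin n → ℂ) :=
  {x | ∑ i, ‖x i - c i‖ ^ 2 < ρ ^ 2}

/-- Four times the Levi form (real Hessian traced over the complex line of `v`). -/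
noncomputable def LeviAt {n : ℕ} (r : (Fin n → ℂ) → ℝ) (p v : Fin n → ℂ) : ℝ :=
  fderiv ℝ (fderiv ℝ r) p v v + fderiv ℝ (fderiv ℝ r) p (Complex.I • v) (Complex.I • v)

/-- The discs `ζ ↦ q + ζ (v + a(q) ν) + b ζ² ν`. -/
noncomputable def D {n : ℕ} (v ν : Fin n → ℂ) (a : (Fin n → ℂ) → ℂ) (b : ℂ) (ζ : ℂ) (q : Fin n → ℂ) :
    Fin n → ℂ := q + ζ • (v + a q • ν) + (b * ζ ^ 2) • ν

/-- Discs adapted to the level sets of `r` near `p`. -/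
structure Tilt {n : ℕ} (r : (Fin n → ℂ) → ℝ) (p v ν : Fin n → ℂ) (a : (Fin n → ℂ) → ℂ) (b : ℂ)
    (κ : ℝ) : Prop where
  a_zero : a p = 0
  a_smooth : ContDiffAt ℝ 1 a p
  a_der : κ = 0 → ∀ ζ : ℂ, fderiv ℝ a p (ζ • v) = 2 * b * ζ
  disc : ∀ η : ℝ, 0 < η → ∃ ε : ℝ, 0 < ε ∧ ∀ q ∈ ball p ε, ∀ ζ ∈ ball (0 : ℂ) ε,
    |r (D v ν a b ζ q) - r q - κ * ‖ζ‖ ^ 2| ≤ η * ‖ζ‖ ^ 2

/-- The mass on `Ω₂` near `p` of a holomorphic function on `Ω₁` is small. -/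
def Tail {n : ℕ} (Ω₁ Ω₂ : Set (Fin n → ℂ)) (p : Fin n → ℂ) : Prop :=
  ∀ η : ℝ, 0 < η → ∃ ε : ℝ, 0 < ε ∧ ∀ f : (Fin n → ℂ) → ℂ, DifferentiableOn ℂ f Ω₁ →
    ∫⁻ z in Ω₂ ∩ ball p ε, ‖f z‖ₑ ^ 2 ≤ ENNReal.ofReal η * ∫⁻ z in Ω₁, ‖f z‖ₑ ^ 2

/-- Existence of adapted discs. -/
def TaskTilt : Prop :=
  ∀ (n : ℕ) (r : (Fin n → ℂ) → ℝ) (p v : Fin n → ℂ), ContDiffAt ℝ 2 r p →
    fderiv ℝ r p ≠ 0 → fderiv ℝ r p v = 0 → fderiv ℝ r p (Complex.I • v) = 0 →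
    ∃ (ν : Fin n → ℂ) (a : (Fin n → ℂ) → ℂ) (b : ℂ), fderiv ℝ r p ν = 1 ∧
      Tilt r p v ν a b (LeviAt r p v / 4)

/-- For fixed small `ζ` the map `q ↦ D ζ q` is injective near `p` with Jacobian at least `1/2`. -/
def TaskInj : Prop :=
  ∀ (n : ℕ) (p v ν : Fin n → ℂ) (a : (Fin n → ℂ) → ℂ) (b : ℂ), ContDiffAt ℝ 1 a p →
    ∃ ε : ℝ, 0 < ε ∧
      ContinuousOn (fun x : ℂ × (Fin n → ℂ) => D v ν a b x.1 x.2) (ball 0 ε ×ˢ ball p ε) ∧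
      ∃ T' : ℂ → (Fin n → ℂ) → ((Fin n → ℂ) →L[ℝ] (Fin n → ℂ)),
        ∀ ζ ∈ ball (0 : ℂ) ε, InjOn (D v ν a b ζ) (ball p ε) ∧
          ∀ q ∈ ball p ε, HasFDerivAt (D v ν a b ζ) (T' ζ q) q ∧ 1 / 2 ≤ |(T' ζ q).det|

/-- Sub-mean value inequality over balls, for a Haar measure. -/
def TaskMV : Prop :=
  ∀ (F : Type) [NormedAddCommGroup F] [NormedSpace ℂ F] [FiniteDimensional ℂ F]
    [MeasurableSpace F] [BorelSpace F] (μ : Measure F) [μ.IsAddHaarMeasure] (x : F) (R : ℝ)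
    (f : F → ℂ), 0 < R → DifferentiableOn ℂ f (ball x R) →
    ‖f x‖ₑ ^ 2 * μ (ball x R) ≤ ∫⁻ y in ball x R, ‖f y‖ₑ ^ 2 ∂μ

/-- Averaging over a family of discs. -/
def AvgStatement : Prop :=
  ∀ (n : ℕ) (S V Ω : Set (Fin n → ℂ)) (T : ℂ → (Fin n → ℂ) → (Fin n → ℂ)) (R : ℝ) (A : ℝ≥0∞)
    (f : (Fin n → ℂ) → ℂ)
    (T' : ℂ → (Fin n → ℂ) → ((Fin n → ℂ) →L[ℝ] (Fin n → ℂ))),
    IsOpen Ω → V ⊆ Ω → DifferentiableOn ℂ f Ω → MeasurableSet S → MeasurableSet V → 0 < R →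
    (∀ q ∈ S, T 0 q = q) →
    (∀ q ∈ S, DifferentiableOn ℂ (fun ζ => T ζ q) (ball 0 R)) →
    (∀ q ∈ S, ∀ ζ ∈ ball (0 : ℂ) R, T ζ q ∈ V) →
    (∀ ζ ∈ ball (0 : ℂ) R, InjOn (T ζ) S) →
    (∀ ζ ∈ ball (0 : ℂ) R, ∀ q ∈ S, HasFDerivWithinAt (T ζ) (T' ζ q) S q ∧
      1 / 2 ≤ |(T' ζ q).det|) →
    ContinuousOn (fun x : ℂ × (Fin n → ℂ) => T x.1 x.2) (ball 0 R ×ˢ S) →
    (∀ z, MeasurableSet {ζ : ℂ | ζ ∈ ball (0 : ℂ) R ∧ ∃ q ∈ S, T ζ q = z} →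
      volume {ζ : ℂ | ζ ∈ ball (0 : ℂ) R ∧ ∃ q ∈ S, T ζ q = z} ≤ A) →
    ∫⁻ q in S, ‖f q‖ₑ ^ 2 ≤
      ENNReal.ofReal (2 / (Real.pi * R ^ 2)) * A * ∫⁻ z in V, ‖f z‖ₑ ^ 2

def TaskAvg : Prop := TaskMV → AvgStatement

/-- Area of a set with short vertical sections. -/
def TaskStrip : Prop :=
  ∀ (A : Set ℂ) (R δ : ℝ), 0 < R → 0 ≤ δ → A ⊆ ball 0 R → MeasurableSet A →
    (∀ z ∈ A, ∀ w ∈ A, z.re = w.re → |z.im - w.im| ≤ δ) →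
    volume A ≤ ENNReal.ofReal (4 * R * δ)

/-- Comparison of the two defining functions near `p` inside the ball. -/
def BallCmp {n : ℕ} (r : (Fin n → ℂ) → ℝ) (p c : Fin n → ℂ) (ρ : ℝ) : Prop :=
  ∃ C : ℝ, 0 < C ∧ ∃ ε : ℝ, 0 < ε ∧ ∀ q ∈ ball p ε, r2 c ρ q < 0 → - r2 c ρ q ≤ C * (- r q)

def TaskBallCmp : Prop :=
  ∀ (n : ℕ) (Ω U : Set (Fin n → ℂ)) (r : (Fin n → ℂ) → ℝ) (p c ν : Fin n → ℂ) (ρ : ℝ),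
    IsOpen U → p ∈ U → Ω ∩ U = {z | z ∈ U ∧ r z < 0} → ContDiffAt ℝ 2 r p → r p = 0 →
    fderiv ℝ r p ν = 1 → eball c ρ ⊆ Ω → BallCmp r p c ρ

/-- Vertical sections are short. -/
def Mid {n : ℕ} (r : (Fin n → ℂ) → ℝ) (p v ν : Fin n → ℂ) (a : (Fin n → ℂ) → ℂ) (b : ℂ)
    (c : Fin n → ℂ) (ρ : ℝ) : Prop :=
  ∃ K : ℝ, 0 < K ∧ ∀ M : ℝ, 1 ≤ M → ∃ ε : ℝ, 0 < ε ∧ ∀ t : ℝ, 0 < t → M * √t < ε →
    ∀ q₁ ∈ ball p ε, ∀ q₂ ∈ ball p ε, r2 c ρ q₁ < 0 → r2 c ρ q₂ < 0 → - r q₁ ≤ t →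
    ∀ ζ₁ ∈ ball (0 : ℂ) (M * √t), ∀ ζ₂ ∈ ball (0 : ℂ) (M * √t),
      D v ν a b ζ₁ q₁ = D v ν a b ζ₂ q₂ → ζ₁.re = ζ₂.re → |ζ₁.im - ζ₂.im| ≤ K * √t

def TaskMid : Prop :=
  ∀ (n : ℕ) (r : (Fin n → ℂ) → ℝ) (p v ν : Fin n → ℂ) (a : (Fin n → ℂ) → ℂ) (b : ℂ)
    (c : Fin n → ℂ) (ρ : ℝ), v ≠ 0 → Tilt r p v ν a b 0 →
    (b * ∑ i, ν i * (starRingEnd ℂ) (p i - c i)).re ≤ 0 → BallCmp r p c ρ →
    Mid r p v ν a b c ρ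

/-- The case of a negative Levi form. -/
def TaskNeg : Prop :=
  AvgStatement → TaskInj →
  ∀ (n : ℕ) (Ω Ω₂ U : Set (Fin n → ℂ)) (r : (Fin n → ℂ) → ℝ) (p v ν : Fin n → ℂ)
    (a : (Fin n → ℂ) → ℂ) (b : ℂ) (κ : ℝ), κ < 0 → v ≠ 0 → Tilt r p v ν a b κ →
    IsOpen Ω → IsOpen U → p ∈ U → Ω ∩ U = {z | z ∈ U ∧ r z < 0} → IsOpen Ω₂ → Ω₂ ⊆ Ω →
    Tail Ω Ω₂ p

/-- The case of a vanishing Levi form: dyadic decomposition. -/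
def TaskDyadic : Prop :=
  AvgStatement → TaskInj → TaskStrip →
  ∀ (n : ℕ) (Ω U : Set (Fin n → ℂ)) (r : (Fin n → ℂ) → ℝ) (p v ν : Fin n → ℂ)
    (a : (Fin n → ℂ) → ℂ) (b : ℂ) (c : Fin n → ℂ) (ρ : ℝ), Tilt r p v ν a b 0 →
    IsOpen Ω → IsOpen U → p ∈ U → ContinuousOn r U → Ω ∩ U = {z | z ∈ U ∧ r z < 0} → r p = 0 →
    eball c ρ ⊆ Ω → Mid r p v ν a b c ρ → Tail Ω (eball c ρ) p

/-- Montel's theorem for bounded sequences of the Bergman space. -/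
def MontelStatement : Prop :=
  ∀ (n : ℕ) (Ω : Set (Fin n → ℂ)) (f : ℕ → (Fin n → ℂ) → ℂ) (C : ℝ≥0), IsOpen Ω →
    (∀ j, DifferentiableOn ℂ (f j) Ω) → (∀ j, ∫⁻ z in Ω, ‖f j z‖ₑ ^ 2 ≤ C) →
    ∃ (g : (Fin n → ℂ) → ℂ) (φ : ℕ → ℕ), StrictMono φ ∧ DifferentiableOn ℂ g Ω ∧
      ∀ K : Set (Fin n → ℂ), IsCompact K → K ⊆ Ω →
        TendstoUniformlyOn (fun j => f (φ j)) g atTop K

def TaskMontel : Prop := TaskMV → MontelStatement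

def TaskCompact : Prop :=
  MontelStatement →
  ∀ (n : ℕ) (Ω₁ Ω₂ : Set (Fin n → ℂ)) (p : Fin n → ℂ), IsOpen Ω₁ → IsOpen Ω₂ → Ω₂ ⊆ Ω₁ →
    Bornology.IsBounded Ω₂ → closure Ω₂ ⊆ insert p Ω₁ → Tail Ω₁ Ω₂ p →
    RestrictionIsCompact Ω₁ Ω₂

end Pool.Agent.H301X.BG
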